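import Pool.Agent.Y267.RS.Stm
import Pool.Agent.Helper118.Yud.G4

set_option autoImplicit false

/-!
# Project RS, job T1: the time-changed linear flow on the torus
-/

namespace Pool.Agent.Y278.RS

open Set Filter Topology MeasureTheory Pool.Agent.Y267.RS

noncomputable section

/-! ## the function sp -/

theorem sp_eq_cube {s : ℝ} (hs : 0 ≤ s) : sp s = (min 1 (√(4 * s))) ^ 3 := by
  have h4 : (0 : ℝ) ≤ 4 * s := by linarith
  have h : (4 * s) * √(4 * s) = (√(4 * s)) ^ 3 := by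
    have := Real.sq_sqrt h4
    calc (4 * s) * √(4 * s) = (√(4 * s)) ^ 2 * √(4 * s) := by rw [this]
      _ = _ := by ring
  unfold sp
  rw [h]
  have h0 := Real.sqrt_nonneg (4 * s)
  rcases le_total 1 (√(4 * s)) with h1 | h1
  · rw [min_eq_left h1, min_eq_left (one_le_pow₀ h1)]
    norm_num
  · rw [min_eq_right h1, min_eq_right (pow_le_one₀ h0 h1)]

theorem sp_nonneg {s : ℝ} (hs : 0 ≤ s) : 0 ≤ sp s := by
  unfold sp
  have := Real.sqrt_nonneg (4 * s)
  positivity

theorem sp_le_one (s : ℝ) : sp s ≤ 1 := min_le_left _ _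

theorem sp_eq_zero_iff {s : ℝ} (hs : 0 ≤ s) : sp s = 0 ↔ s = 0 := by
  rw [sp_eq_cube hs]
  constructor
  · intro h
    have h1 : min 1 (√(4 * s)) = 0 := by
      simpa using h
    rcases le_total 1 (√(4 * s)) with h2 | h2
    · rw [min_eq_left h2] at h1
      norm_num at h1
    · rw [min_eq_right h2, Real.sqrt_eq_zero (by linarith)] at h1
      linarith
  · rintro rfl
    simp

theorem cube_lip {a b : ℝ} (ha : 0 ≤ a) (hb : 0 ≤ b) (ha1 : a ≤ 1) (hb1 : b ≤ 1) (hab : b ≤ a) :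
    a ^ 3 - b ^ 3 ≤ 3 / 2 * (a ^ 2 - b ^ 2) := by
  have h1 : a ^ 2 + a * b + b ^ 2 ≤ 3 / 2 * (a + b) := by nlinarith
  nlinarith [mul_nonneg (sub_nonneg.2 hab) (sub_nonneg.2 h1)]

theorem sp_lip_aux {s t : ℝ} (ht : 0 ≤ t) (hts : t ≤ s) : |sp s - sp t| ≤ 6 * |s - t| := by
  have hs : 0 ≤ s := ht.trans hts
  rw [sp_eq_cube hs, sp_eq_cube ht]
  have hm : min 1 (√(4 * t)) ≤ min 1 (√(4 * s)) :=
    min_le_min le_rfl (Real.sqrt_le_sqrt (by linarith))
  have h0 : 0 ≤ min 1 (√(4 * t)) := le_min zero_le_one (Real.sqrt_nonneg _)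
  have h1 : 0 ≤ min 1 (√(4 * s)) := le_min zero_le_one (Real.sqrt_nonneg _)
  have h2 := cube_lip h1 h0 (min_le_left _ _) (min_le_left _ _) hm
  have h3 : (min 1 (√(4 * s))) ^ 2 - (min 1 (√(4 * t))) ^ 2 ≤ 4 * (s - t) := by
    rcases le_total 1 (√(4 * s)) with h4 | h4
    · rcases le_total 1 (√(4 * t)) with h5 | h5
      · rw [min_eq_left h4, min_eq_left h5]
        linarith
      · rw [min_eq_left h4, min_eq_right h5, Real.sq_sqrt (by linarith)]
        have : 1 ≤ 4 * s := by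
          rw [← Real.sqrt_one] at h4
          exact (Real.sqrt_le_sqrt_iff (by linarith)).1 h4
        linarith
    · have h5 : √(4 * t) ≤ 1 := (Real.sqrt_le_sqrt (by linarith)).trans h4
      rw [min_eq_right h4, min_eq_right h5, Real.sq_sqrt (by linarith),
        Real.sq_sqrt (by linarith)]
      linarith
  rw [abs_of_nonneg (sub_nonneg.2 (pow_le_pow_left₀ h0 hm 3)), abs_of_nonneg (sub_nonneg.2 hts)]
  linarith

theorem sp_lip {s t : ℝ} (hs : 0 ≤ s) (ht : 0 ≤ t) : |sp s - sp t| ≤ 6 * |s - t| := by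
  rcases le_total t s with h | h
  · exact sp_lip_aux ht h
  · rw [abs_sub_comm, abs_sub_comm s t]
    exact sp_lip_aux hs h

theorem sp_continuous : Continuous sp := by
  unfold sp
  fun_prop

/-! ## the harmonic-type mean -/

/-- the combination of the two speed factors -/
def GG (a b : ℝ) : ℝ := a * b / (a + b - a * b)

theorem GG_comm (a b : ℝ) : GG a b = GG b a := by
  unfold GG
  rw [mul_comm a b, add_comm a b]

theorem GG_den {a b : ℝ} (ha : 0 ≤ a) (hb1 : b ≤ 1) : b ≤ a + b - a * b := by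
  nlinarith

theorem GG_nonneg {a b : ℝ} (ha : 0 ≤ a) (hb : 0 ≤ b) (hb1 : b ≤ 1) : 0 ≤ GG a b := by
  unfold GG
  have := GG_den ha hb1
  exact div_nonneg (mul_nonneg ha hb) (hb.trans this)

theorem GG_le_one {a b : ℝ} (ha : 0 ≤ a) (hb : 0 ≤ b) (ha1 : a ≤ 1) (hb1 : b ≤ 1) :
    GG a b ≤ 1 := by
  unfold GG
  have h1 := GG_den ha hb1
  apply div_le_one_of_le₀ _ (hb.trans h1)
  nlinarith

theorem GG_eq_zero_iff {a b : ℝ} (ha : 0 ≤ a) (hb : 0 ≤ b) (hb1 : b ≤ 1) :
    GG a b = 0 ↔ a = 0 ∨ b = 0 := by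
  unfold GG
  rw [div_eq_zero_iff, mul_eq_zero]
  constructor
  · rintro (h | h)
    · exact h
    · right
      have := GG_den ha hb1
      linarith
  · intro h
    exact Or.inl h

theorem GG_lip_left {a a' b : ℝ} (ha : 0 ≤ a) (ha' : 0 ≤ a') (hb : 0 ≤ b)
    (hb1 : b ≤ 1) : |GG a b - GG a' b| ≤ |a - a'| := by
  rcases hb.eq_or_lt with rfl | hb0
  · simp [GG]
  have h1 := GG_den ha hb1
  have h2 := GG_den ha' hb1
  have hd1 : 0 < a + b - a * b := hb0.trans_le h1
  have hd2 : 0 < a' + b - a' * b := hb0.trans_le h2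
  have h3 : GG a b - GG a' b
      = b ^ 2 / ((a + b - a * b) * (a' + b - a' * b)) * (a - a') := by
    unfold GG
    rw [div_sub_div _ _ hd1.ne' hd2.ne', div_mul_eq_mul_div]
    congr 1
    ring
  rw [h3, abs_mul]
  have h4 : |b ^ 2 / ((a + b - a * b) * (a' + b - a' * b))| ≤ 1 := by
    rw [abs_of_nonneg (by positivity)]
    apply div_le_one_of_le₀ _ (by positivity)
    rw [pow_two]
    exact mul_le_mul h1 h2 hb0.le hd1.le
  calc _ ≤ 1 * |a - a'| := mul_le_mul_of_nonneg_right h4 (abs_nonneg _)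
    _ = _ := one_mul _

theorem GG_lip {a a' b b' : ℝ} (ha : 0 ≤ a) (ha' : 0 ≤ a') (ha1' : a' ≤ 1) (hb : 0 ≤ b)
    (hb1 : b ≤ 1) (hb' : 0 ≤ b') :
    |GG a b - GG a' b'| ≤ |a - a'| + |b - b'| := by
  have h1 := GG_lip_left ha ha' hb hb1
  have h2 := GG_lip_left (b := a') hb hb' ha' ha1'
  rw [GG_comm b a', GG_comm b' a'] at h2
  calc |GG a b - GG a' b'| = |(GG a b - GG a' b) + (GG a' b - GG a' b')| := by ring_nf
    _ ≤ _ := (abs_add_le _ _).trans (add_le_add h1 h2)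

/-! ## norms on the circle -/

theorem norm_coe_le (u : ℝ) : ‖(u : T1)‖ ≤ |u| := by
  have := QuotientAddGroup.norm_mk_le_norm (S := AddSubgroup.zmultiples (1 : ℝ)) (m := u)
  simpa using this

theorem abs_norm_sub_le' (x y : T1) : |‖x‖ - ‖y‖| ≤ ‖x - y‖ := abs_norm_sub_norm_le x y

theorem om_zero : om 0 = 0 := by
  unfold om
  have h : ‖((1 / 4 : ℝ) : T1)‖ = |1 / 4| := by
    rw [AddCircle.norm_coe_eq_abs_iff _ one_ne_zero]
    norm_num [abs_of_pos]
  rw [zero_add, h]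
  norm_num

theorem om_lip (t t' : T1) : |om t - om t'| ≤ ‖t - t'‖ := by
  unfold om
  have h := abs_norm_sub_norm_le (t + ((1 / 4 : ℝ) : T1)) (t' + ((1 / 4 : ℝ) : T1))
  rw [add_sub_add_right_eq_sub] at h
  rw [sub_sub_sub_cancel_right]
  exact h

theorem om_continuous : Continuous om := by
  unfold om
  fun_prop

/-! ## the distance functions -/

/-- the argument of `sp` -/
def DD (p : T1) (z : T1 × T1) : ℝ := ‖z.1 - ((al * om z.2 : ℝ) : T1) - p‖ + ‖z.2‖

theorem sq_eq (p : T1) (z : T1 × T1) : Pool.Agent.Y267.RS.sq p z = sp (DD p z) := rfl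

theorem DD_nonneg (p : T1) (z : T1 × T1) : 0 ≤ DD p z := by
  unfold DD
  positivity

theorem coe_continuous : Continuous (fun u : ℝ => (u : T1)) := AddCircle.continuous_mk' 1

theorem DD_continuous (p : T1) : Continuous (DD p) := by
  unfold DD
  have h1 : Continuous (fun z : T1 × T1 => ((al * om z.2 : ℝ) : T1)) :=
    coe_continuous.comp (continuous_const.mul (om_continuous.comp continuous_snd))
  exact ((continuous_fst.sub h1).sub continuous_const).norm.add continuous_snd.norm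

theorem DD_eq_zero_iff (p : T1) (z : T1 × T1) : DD p z = 0 ↔ z = (p, 0) := by
  unfold DD
  constructor
  · intro h
    have h1 := norm_nonneg (z.1 - ((al * om z.2 : ℝ) : T1) - p)
    have h2 := norm_nonneg z.2
    have h3 : ‖z.2‖ = 0 := by linarith
    have h4 : ‖z.1 - ((al * om z.2 : ℝ) : T1) - p‖ = 0 := by linarith
    rw [norm_eq_zero] at h3 h4
    rw [h3, om_zero, mul_zero, QuotientAddGroup.mk_zero, sub_zero, sub_eq_zero] at h4
    exact Prod.ext h4 h3
  · rintro rfl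
    simp [om_zero]

theorem DD_lip (p : T1) (z : T1 × T1) (u u' : ℝ) :
    |DD p (mv z u) - DD p (mv z u')| ≤ (2 * |al| + 1) * |u - u'| := by
  have hz : z.2 + (u : T1) - (z.2 + (u' : T1)) = ((u - u' : ℝ) : T1) := by
    rw [add_sub_add_left_eq_sub, AddCircle.coe_sub]
  have h2 : |‖z.2 + (u : T1)‖ - ‖z.2 + (u' : T1)‖| ≤ |u - u'| := by
    refine (abs_norm_sub_norm_le _ _).trans ?_
    rw [hz]
    exact norm_coe_le _
  have hom : |om (z.2 + (u : T1)) - om (z.2 + (u' : T1))| ≤ |u - u'| := by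
    refine (om_lip _ _).trans ?_
    rw [hz]
    exact norm_coe_le _
  have h1 : |‖z.1 + ((al * u : ℝ) : T1) - ((al * om (z.2 + (u : T1)) : ℝ) : T1) - p‖
      - ‖z.1 + ((al * u' : ℝ) : T1) - ((al * om (z.2 + (u' : T1)) : ℝ) : T1) - p‖|
      ≤ 2 * |al| * |u - u'| := by
    refine (abs_norm_sub_norm_le _ _).trans ?_
    have he : z.1 + ((al * u : ℝ) : T1) - ((al * om (z.2 + (u : T1)) : ℝ) : T1) - p
        - (z.1 + ((al * u' : ℝ) : T1) - ((al * om (z.2 + (u' : T1)) : ℝ) : T1) - p)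
        = ((al * (u - u') : ℝ) : T1)
          - ((al * (om (z.2 + (u : T1)) - om (z.2 + (u' : T1))) : ℝ) : T1) := by
      rw [mul_sub, mul_sub, AddCircle.coe_sub, AddCircle.coe_sub]
      abel
    rw [he]
    calc _ ≤ ‖((al * (u - u') : ℝ) : T1)‖
          + ‖((al * (om (z.2 + (u : T1)) - om (z.2 + (u' : T1))) : ℝ) : T1)‖ := norm_sub_le _ _
      _ ≤ |al * (u - u')| + |al * (om (z.2 + (u : T1)) - om (z.2 + (u' : T1)))| :=
          add_le_add (norm_coe_le _) (norm_coe_le _)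
      _ ≤ |al| * |u - u'| + |al| * |u - u'| := by
          rw [abs_mul, abs_mul]
          exact add_le_add le_rfl (mul_le_mul_of_nonneg_left hom (abs_nonneg _))
      _ = _ := by ring
  have h3 : DD p (mv z u) - DD p (mv z u')
      = (‖z.1 + ((al * u : ℝ) : T1) - ((al * om (z.2 + (u : T1)) : ℝ) : T1) - p‖
      - ‖z.1 + ((al * u' : ℝ) : T1) - ((al * om (z.2 + (u' : T1)) : ℝ) : T1) - p‖)
      + (‖z.2 + (u : T1)‖ - ‖z.2 + (u' : T1)‖) := by
    unfold DD mv
    ring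
  rw [h3]
  calc _ ≤ 2 * |al| * |u - u'| + |u - u'| := (abs_add_le _ _).trans (add_le_add h1 h2)
    _ = _ := by ring

/-! ## the speed -/

theorem vv_eq (z : T1 × T1) : vv z = GG (sp (DD 0 z)) (sp (DD (be : T1) z)) := rfl

theorem GG_continuousOn : ContinuousOn (fun q : ℝ × ℝ => GG q.1 q.2)
    (Icc (0 : ℝ) 1 ×ˢ Icc (0 : ℝ) 1) := by
  intro q hq
  rw [Metric.continuousWithinAt_iff]
  intro ε hε
  refine ⟨ε / 2, by positivity, fun {q'} hq' hd => ?_⟩
  rw [Prod.dist_eq, max_lt_iff] at hd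
  rw [Real.dist_eq]
  have h := GG_lip hq'.1.1 hq.1.1 hq.1.2 hq'.2.1 hq'.2.2 hq.2.1
  have h1 := hd.1
  have h2 := hd.2
  rw [Real.dist_eq] at h1 h2
  linarith

theorem vv_continuous : Continuous vv := by
  have h : Continuous (fun z : T1 × T1 => (sp (DD 0 z), sp (DD (be : T1) z))) :=
    (sp_continuous.comp (DD_continuous 0)).prodMk (sp_continuous.comp (DD_continuous _))
  have h2 := GG_continuousOn.comp_continuous h (fun z =>
    ⟨⟨sp_nonneg (DD_nonneg _ _), sp_le_one _⟩, ⟨sp_nonneg (DD_nonneg _ _), sp_le_one _⟩⟩)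
  exact h2

theorem vv_mem (z : T1 × T1) : 0 ≤ vv z ∧ vv z ≤ 1 := by
  rw [vv_eq]
  exact ⟨GG_nonneg (sp_nonneg (DD_nonneg _ _)) (sp_nonneg (DD_nonneg _ _)) (sp_le_one _),
    GG_le_one (sp_nonneg (DD_nonneg _ _)) (sp_nonneg (DD_nonneg _ _)) (sp_le_one _)
      (sp_le_one _)⟩

theorem vv_zero (z : T1 × T1) : vv z = 0 ↔ z = (0, 0) ∨ z = ((be : T1), 0) := by
  rw [vv_eq, GG_eq_zero_iff (sp_nonneg (DD_nonneg _ _)) (sp_nonneg (DD_nonneg _ _))
    (sp_le_one _), sp_eq_zero_iff (DD_nonneg _ _), sp_eq_zero_iff (DD_nonneg _ _),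
    DD_eq_zero_iff, DD_eq_zero_iff]

theorem vv_lip (z : T1 × T1) (u u' : ℝ) :
    |vv (mv z u) - vv (mv z u')| ≤ 12 * (2 * |al| + 1) * |u - u'| := by
  rw [vv_eq, vv_eq]
  refine (GG_lip (sp_nonneg (DD_nonneg _ _)) (sp_nonneg (DD_nonneg _ _)) (sp_le_one _)
    (sp_nonneg (DD_nonneg _ _)) (sp_le_one _) (sp_nonneg (DD_nonneg _ _))).trans ?_
  have h1 := (sp_lip (DD_nonneg 0 (mv z u)) (DD_nonneg 0 (mv z u'))).trans
    (mul_le_mul_of_nonneg_left (DD_lip 0 z u u') (by norm_num : (0 : ℝ) ≤ 6))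
  have h2 := (sp_lip (DD_nonneg (be : T1) (mv z u)) (DD_nonneg (be : T1) (mv z u'))).trans
    (mul_le_mul_of_nonneg_left (DD_lip (be : T1) z u u') (by norm_num : (0 : ℝ) ≤ 6))
  calc _ ≤ _ := add_le_add h1 h2
    _ = _ := by ring

theorem vv_props (_h6 : A6Stm) : Continuous vv ∧ (∀ z, 0 ≤ vv z ∧ vv z ≤ 1) ∧
    (∀ z, vv z = 0 ↔ z = (0, 0) ∨ z = ((be : T1), 0)) ∧
    ∃ L : ℝ, ∀ z u u', |vv (mv z u) - vv (mv z u')| ≤ L * |u - u'| :=
  ⟨vv_continuous, vv_mem, vv_zero, _, vv_lip⟩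

/-! ## the flow -/

theorem mv_mv (z : T1 × T1) (a b : ℝ) : mv (mv z a) b = mv z (a + b) := by
  unfold mv
  simp only [mul_add, AddCircle.coe_add, add_assoc]

theorem mv_continuous : Continuous (fun q : (T1 × T1) × ℝ => mv q.1 q.2) := by
  unfold mv
  have h1 : Continuous (fun q : (T1 × T1) × ℝ => ((al * q.2 : ℝ) : T1)) :=
    coe_continuous.comp (continuous_const.mul continuous_snd)
  have h2 : Continuous (fun q : (T1 × T1) × ℝ => ((q.2 : ℝ) : T1)) :=
    coe_continuous.comp continuous_snd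
  exact ((continuous_fst.comp continuous_fst).add h1).prodMk
    ((continuous_snd.comp continuous_fst).add h2)

theorem t1 (_h6 : A6Stm) : T1Stm := by
  have hcc : ∀ η : C(T1 × T1, ℝ), Continuous (fun z : T1 × T1 => vv (mv z (η z))) := fun η =>
    vv_continuous.comp (mv_continuous.comp (continuous_id.prodMk η.continuous))
  let F : ℝ → C(T1 × T1, ℝ) → C(T1 × T1, ℝ) := fun _ η => ⟨fun z => vv (mv z (η z)), hcc η⟩
  have hF : ∀ t η z, F t η z = vv (mv z (η z)) := fun _ _ _ => rfl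
  have hL0 : 0 ≤ 12 * (2 * |al| + 1) := by positivity
  obtain ⟨η, hη0, hη⟩ := Pool.Agent.Helper118.Yud.g4_global_ode F
    (Real.toNNReal (12 * (2 * |al| + 1))) (by
    intro t
    refine LipschitzWith.of_dist_le_mul fun x y => ?_
    rw [Real.coe_toNNReal _ hL0, ContinuousMap.dist_le (by positivity)]
    intro a
    rw [hF t, hF t, dist_eq_norm, Real.norm_eq_abs]
    refine (vv_lip a (x a) (y a)).trans (mul_le_mul_of_nonneg_left ?_ hL0)
    rw [← Real.dist_eq]
    exact ContinuousMap.dist_apply_le_dist a) (fun x => continuous_const) (by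
    intro T
    refine ⟨1, fun t _ x => ?_⟩
    rw [ContinuousMap.norm_le _ zero_le_one]
    intro a
    rw [hF t, Real.norm_eq_abs, abs_of_nonneg (vv_mem _).1]
    exact (vv_mem _).2)
  have hηc : Continuous η := continuous_iff_continuousAt.2 fun t => (hη t).continuousAt
  have hder : ∀ s z, HasDerivAt (fun s' => η s' z) (vv (mv z (η s z))) s := by
    intro s z
    have h1 := ((ContinuousMap.evalCLM ℝ z : C(T1 × T1, ℝ) →L[ℝ] ℝ).hasFDerivAt
      (x := η s)).comp_hasDerivAt s (hη s)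
    exact h1
  have hzero : ∀ z, η 0 z = 0 := by
    intro z
    rw [hη0]
    rfl
  refine ⟨fun s z => η s z, ?_, hzero, hder, ?_⟩
  · exact (hηc.comp continuous_fst).eval continuous_snd
  · intro s s' z
    have hlip : ∀ t : ℝ, LipschitzOnWith (Real.toNNReal (12 * (2 * |al| + 1)))
        (fun u : ℝ => vv (mv z u)) univ := by
      intro t
      refine LipschitzOnWith.of_dist_le_mul fun x _ y _ => ?_
      rw [Real.coe_toNNReal _ hL0, Real.dist_eq, Real.dist_eq]
      exact vv_lip z x y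
    have hu := ODE_solution_unique_univ (v := fun (_ : ℝ) (u : ℝ) => vv (mv z u))
      (s := fun _ => univ) (K := Real.toNNReal (12 * (2 * |al| + 1)))
      (f := fun t => η (s + t) z) (g := fun t => η s z + η t (mv z (η s z))) (t₀ := 0)
      hlip
      (fun t => ⟨by
        exact (hder (s + t) z).comp_const_add s t, mem_univ _⟩)
      (fun t => ⟨by
        have h := (hder t (mv z (η s z))).const_add (η s z)
        rw [mv_mv] at h
        exact h, mem_univ _⟩)
      (by simp [hzero])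
    exact congrFun hu s'

end

end Pool.Agent.Y278.RS
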